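import Pool.Agent.Helper74.NM.St

/-!
# Module DYY of project NM: the letter `y g`
-/

set_option autoImplicit false

namespace Pool.Agent.Helper40.NM

open Pool.Agent.Helper74 Pool.Agent.Helper74.NM

theorem hDYY (hGA : StGA) (hSTP : StSTP) (hDAB : StDAB) (hDBD : StDBD) : StDYY := by
  intro α W rk l hl g₀ w m
  induction m with
  | nil =>
    intro _
    rw [List.flatMap_nil, List.nil_append, dead_cons]
    refine ⟨fun _ h => ?_, fun h => ?_, fun x σ' h => ?_⟩
    · simp [P] at h
    · simp [op] at h
    · simp at h
  | cons g m ih =>
    intro hm
    have hg := hm g List.mem_cons_self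
    have hm' : ∀ g ∈ m, Rc rk g ∧ g ≠ g₀ := fun g' h => hm g' (List.mem_cons_of_mem _ h)
    rw [List.flatMap_cons, List.append_assoc, dead_append]
    constructor
    · unfold gd
      rw [dead_append]
      constructor
      · apply (hDAB W rk (.y g₀) g []).1
        intro _ h
        simp only [P] at h
        exact hg.2 h
      · intro τ hτ
        rcases (hGA W rk g []).2.2 clean_nil τ hτ with h | h
        · rw [h]
          apply (hDAB W rk (.y g₀) g _).2
          intro h'
          simp at h'
        · simp [Zs] at h
    · intro τ hτ
      rcases (hSTP W rk g hg.1).2.2 τ hτ with h | h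
      · rw [h]
        exact ih hm'
      · exact (hDBD α W rk l hl (.y g₀) w).1 m τ (fun g' h' => (hm' g' h').1) h

end Pool.Agent.Helper40.NM
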